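import Pool.Agent.Helper95_DE.GlPoly

/-!
# Global dimension of standard etale algebras (module GLETALE of the squad MP_9c87df_ag)
-/

open CategoryTheory CategoryTheory.Limits TensorProduct

noncomputable section

namespace Pool.Agent.H66DE

theorem finGlEtale : FinGlEtaleStatement := by
  intro B _ P hP hB A _ _ T _ hunit
  let _ : Algebra B A :=
    ((algebraMap (AdjoinRoot P) A).comp (algebraMap B (AdjoinRoot P))).toAlgebra
  have hst : IsScalarTower B (AdjoinRoot P) A := IsScalarTower.of_algebraMap_eq fun _ => rfl
  have hfree : Module.Free B (AdjoinRoot P) := hP.free_adjoinRoot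
  have hflat : Module.Flat (AdjoinRoot P) A := IsLocalization.flat A T
  have hflat' : Module.Flat B A := Module.Flat.trans B (AdjoinRoot P) A
  have hess : Algebra.EssFiniteType B A := by
    have h1 : Algebra.EssFiniteType (AdjoinRoot P) A := Algebra.EssFiniteType.of_isLocalization A T
    have h2 : Algebra.FiniteType B (AdjoinRoot P) := inferInstance
    exact Algebra.EssFiniteType.comp B (AdjoinRoot P) A
  have hur : Algebra.FormallyUnramified B A := by
    rw [Algebra.FormallyUnramified.iff_comp_injective]
    intro Q _ _ I hI f g hfg
    set α : A := algebraMap (AdjoinRoot P) A (AdjoinRoot.root P) with hα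
    have hPα : Polynomial.aeval α P = 0 := by
      rw [hα, Polynomial.aeval_algebraMap_apply, AdjoinRoot.aeval_eq, AdjoinRoot.mk_self, map_zero]
    have hdα : IsUnit (Polynomial.aeval α (Polynomial.derivative P)) := by
      rw [hα, Polynomial.aeval_algebraMap_apply, AdjoinRoot.aeval_eq]
      exact hunit
    have hf : Polynomial.aeval (f α) P = 0 := by
      rw [Polynomial.aeval_algHom_apply, hPα, map_zero]
    have hg : Polynomial.aeval (g α) P = 0 := by
      rw [Polynomial.aeval_algHom_apply, hPα, map_zero]
    have hfd : IsUnit (Polynomial.aeval (f α) (Polynomial.derivative P)) := by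
      rw [Polynomial.aeval_algHom_apply]
      exact hdα.map f
    have hmem : g α - f α ∈ I := by
      rw [← Ideal.Quotient.eq]
      exact (DFunLike.congr_fun hfg α).symm
    have hsq : (g α - f α) ^ 2 = 0 := by
      have := Ideal.pow_mem_pow hmem 2
      rw [hI] at this
      exact this
    have key : f α = g α := by
      obtain ⟨k, hk⟩ := Polynomial.binomExpansion (P.map (algebraMap B Q)) (f α) (g α - f α)
      rw [add_sub_cancel, hsq, mul_zero, add_zero, Polynomial.eval_map_algebraMap, hg,
        Polynomial.eval_map_algebraMap, hf, zero_add, Polynomial.derivative_map,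
        Polynomial.eval_map_algebraMap] at hk
      have := (hfd.mul_right_eq_zero).1 hk.symm
      exact (sub_eq_zero.1 this).symm
    have hC : (f : A →+* Q).comp (algebraMap (AdjoinRoot P) A) =
        (g : A →+* Q).comp (algebraMap (AdjoinRoot P) A) := by
      apply AdjoinRoot.ringHom_ext
      · ext b
        show f (algebraMap B A b) = g (algebraMap B A b)
        rw [f.commutes, g.commutes]
      · exact key
    have := IsLocalization.ringHom_ext T hC
    exact AlgHom.ext fun a => RingHom.congr_fun this a
  obtain ⟨n, h⟩ := (GL95.finGl_iff B).1 hB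
  refine (GL95.finGl_iff A).2 ⟨n, fun M => ?_⟩
  let _ : Module B M := Module.compHom M (algebraMap B A)
  have : IsScalarTower B A M := IsScalarTower.of_algebraMap_smul fun _ _ => rfl
  have h1 := GL95.pd_tensor B A n M (h (ModuleCat.of B M))
  exact (Retract.mk (ModuleCat.ofHom (Algebra.FormallyUnramified.sec B A M)) (ModuleCat.ofHom _)
    (ModuleCat.hom_ext (Algebra.FormallyUnramified.comp_sec B A M)) :
      Retract M (ModuleCat.of A (A ⊗[B] M))).hasProjectiveDimensionLT n

end Pool.Agent.H66DE
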