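import Pool.Agent.Helper95_DE.Chart

/-!
# The blow-up (module BLOW of the squad MP_9c87df_ag)
-/

open Polynomial CategoryTheory CategoryTheory.Limits AlgebraicGeometry

noncomputable section

namespace Pool.Agent.H66DE

namespace BL95

theorem isIso_restrict {X Y Z : Scheme.{0}} (f : X ⟶ Y) (U : Y.Opens) (h : Z ⟶ X)
    [IsOpenImmersion h] [IsOpenImmersion (h ≫ f)] (hr : Set.range h = (f ⁻¹ᵁ U : Set X))
    (hr2 : Set.range (h ≫ f) = (U : Set Y)) : IsIso (f ∣_ U) := by
  let e1 : Z ≅ (f ⁻¹ᵁ U).toScheme := IsOpenImmersion.isoOfRangeEq h (f ⁻¹ᵁ U).ι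
    (by rw [hr, Scheme.Opens.range_ι])
  let e2 : Z ≅ U.toScheme := IsOpenImmersion.isoOfRangeEq (h ≫ f) U.ι
    (by rw [hr2, Scheme.Opens.range_ι])
  have h1 : e1.hom ≫ (f ∣_ U) = e2.hom := by
    rw [← cancel_mono U.ι, Category.assoc, morphismRestrict_ι, ← Category.assoc,
      IsOpenImmersion.isoOfRangeEq_hom_fac, IsOpenImmersion.isoOfRangeEq_hom_fac]
  have h2 : f ∣_ U = e1.inv ≫ e2.hom := by rw [← h1, Iso.inv_hom_id_assoc]
  rw [h2]
  infer_instance

/-- localization of a chart ring at `s` is the localization of `R` at `s` -/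
theorem isLoc_chart {R K : Type} [CommRing R] [Field K] [Algebra R K]
    (hinj : Function.Injective (algebraMap R K)) (I : Ideal R) (s : R) (hs : s ∈ I)
    (L : Type) [CommRing L] [Algebra (chartRing R K I s hs) L] [Algebra R L]
    [IsLocalization.Away (toChart R K I s hs s) L]
    (hcomp : algebraMap R L = (algebraMap (chartRing R K I s hs) L).comp (toChart R K I s hs))
    (h0 : algebraMap R K s ≠ 0) :
    IsLocalization.Away s L := by
  have hdom : ∀ z : chartRing R K I s hs, (toChart R K I s hs s) * z = 0 → z = 0 := by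
    intro z hz
    have h1 : algebraMap R K s * (z : K) = 0 := congrArg Subtype.val hz
    rcases mul_eq_zero.1 h1 with h | h
    · exact absurd h h0
    · exact Subtype.ext h
  have hdom' : ∀ (n : ℕ) (z : chartRing R K I s hs), (toChart R K I s hs s) ^ n * z = 0 → z = 0 := by
    intro n
    induction n with
    | zero => intro z hz; simpa using hz
    | succ n ih =>
      intro z hz
      rw [pow_succ, mul_assoc] at hz
      exact hdom z (ih _ hz)
  constructor
  constructor
  · rintro ⟨_, n, rfl⟩
    show IsUnit (algebraMap R L (s ^ n))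
    rw [hcomp, RingHom.comp_apply, map_pow, map_pow]
    exact (IsLocalization.Away.algebraMap_isUnit (toChart R K I s hs s)).pow n
  · intro z
    obtain ⟨n, a, ha⟩ := IsLocalization.Away.surj (toChart R K I s hs s) z
    obtain ⟨m, r, hr, h⟩ := a.2
    refine ⟨(r, ⟨s ^ (n + m), n + m, rfl⟩), ?_⟩
    show z * algebraMap R L (s ^ (n + m)) = algebraMap R L r
    have h1 : a * toChart R K I s hs s ^ m = toChart R K I s hs r := by
      apply Subtype.ext
      exact h
    rw [hcomp, RingHom.comp_apply, RingHom.comp_apply, ← h1, map_pow, map_pow, pow_add, ← mul_assoc,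
      ha, map_mul, map_pow]
  · intro x y hxy
    rw [hcomp, RingHom.comp_apply, RingHom.comp_apply] at hxy
    obtain ⟨⟨_, n, rfl⟩, hc⟩ := (IsLocalization.eq_iff_exists
      (Submonoid.powers (toChart R K I s hs s)) L).1 hxy
    refine ⟨1, ?_⟩
    have h1 : toChart R K I s hs x - toChart R K I s hs y = 0 := by
      apply hdom' n
      rw [mul_sub, sub_eq_zero]
      exact hc
    have h2 : algebraMap R K x - algebraMap R K y = 0 := congrArg Subtype.val h1
    rw [hinj (sub_eq_zero.1 h2)]

section

variable {R : Type} [CommRing R] {ι : Type} (s : ι → R)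

/-- the ideal -/
abbrev II : Ideal R := Ideal.span (Set.range s)

/-- generators -/
abbrev tI (i : ι) : reesAlgebra (II s) := tt (s i) (Ideal.subset_span ⟨i, rfl⟩)

theorem adjoin_tI : Algebra.adjoin R (Set.range (tI s)) = ⊤ := adjoin_gen s _ (fun _ => rfl)

instance isScalarTower_gr (I : Ideal R) : IsScalarTower R (gr I 0) (reesAlgebra I) :=
  ⟨fun r a b => smul_mul_assoc r (a : reesAlgebra I) b⟩

theorem adjoin_tI' : Algebra.adjoin (gr (II s) 0) (Set.range (tI s)) = ⊤ := by
  rw [eq_top_iff]
  intro p _
  have h : (⊤ : Subalgebra R (reesAlgebra (II s))) ≤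
      (Algebra.adjoin (gr (II s) 0) (Set.range (tI s))).restrictScalars R := by
    rw [← adjoin_tI]
    apply Algebra.adjoin_le
    exact Algebra.subset_adjoin
  exact h trivial

theorem cover_tI : ⨆ i, Proj.basicOpen (gr (II s)) (tI s i) = ⊤ :=
  Proj.iSup_basicOpen_eq_top' (gr (II s)) (tI s) (fun _ => ⟨1, tt_mem _ _⟩) (adjoin_tI' s)

/-- the structure morphism of the blow-up -/
def fB : Proj (gr (II s)) ⟶ Spec (CommRingCat.of R) :=
  Proj.toSpecZero (gr (II s)) ≫ Spec.map (CommRingCat.ofHom (algebraMap R (gr (II s) 0)))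

theorem gr0_surj (I : Ideal R) : Function.Surjective (algebraMap R (gr I 0)) := by
  intro p
  refine ⟨((p : reesAlgebra I) : R[X]).coeff 0, ?_⟩
  apply Subtype.ext
  apply Subtype.ext
  rw [eq_monomial p.2, coeff_monomial, if_pos rfl]
  rfl

theorem locNoeth [IsNoetherianRing R] : IsLocallyNoetherian (Proj (gr (II s))) := by
  have h1 : IsNoetherianRing (gr (II s) 0) := isNoetherianRing_of_surjective _ _ _ (gr0_surj (II s))
  have h2 : Algebra.FiniteType (gr (II s) 0) (reesAlgebra (II s)) :=
    Algebra.FiniteType.of_restrictScalars_finiteType R _ _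
  have h3 : LocallyOfFiniteType (Proj.toSpecZero (gr (II s))) := inferInstance
  exact LocallyOfFiniteType.isLocallyNoetherian (Proj.toSpecZero (gr (II s)))

theorem tI_ne_zero (hs : ∀ i, s i ≠ 0) (i : ι) : tI s i ≠ 0 := by
  intro h
  apply hs i
  have h2 : ((tI s i : reesAlgebra (II s)) : R[X]).coeff 1 = 0 := by rw [h]; simp
  rwa [coeff_tt] at h2

/-- the generic point of the blow-up -/
def genPt [IsDomain R] [Nonempty ι] (hs : ∀ i, s i ≠ 0) : ProjectiveSpectrum (gr (II s)) where
  asHomogeneousIdeal := ⊥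
  isPrime := by
    rw [HomogeneousIdeal.toIdeal_bot]
    exact Ideal.isPrime_bot
  not_irrelevant_le := by
    intro h
    obtain ⟨i⟩ := ‹Nonempty ι›
    have h1 : tI s i ∈ HomogeneousIdeal.irrelevant (gr (II s)) := by
      rw [HomogeneousIdeal.mem_irrelevant_iff, GradedRing.proj_apply,
        DirectSum.decompose_of_mem_ne (gr (II s)) (tt_mem _ _) (by norm_num)]
    have h2 := h h1
    exact tI_ne_zero s hs i h2

theorem irred [IsDomain R] [Nonempty ι] (hs : ∀ i, s i ≠ 0) :
    IrreducibleSpace (Proj (gr (II s))) := by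
  have h : closure ({genPt s hs} : Set (ProjectiveSpectrum (gr (II s)))) = Set.univ := by
    rw [Set.eq_univ_iff_forall]
    intro x
    rw [← ProjectiveSpectrum.le_iff_mem_closure]
    exact bot_le (a := x.asHomogeneousIdeal)
  have h2 : IsIrreducible (Set.univ : Set (ProjectiveSpectrum (gr (II s)))) := by
    rw [← h]
    exact isIrreducible_singleton.closure
  exact { isPreirreducible_univ := h2.2, toNonempty := ⟨genPt s hs⟩ }

end

section

variable {R : Type} [CommRing R] [IsDomain R] {ι : Type} (s : ι → R) (hs : ∀ i, s i ≠ 0)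

/-- the chart ring -/
abbrev CR (i : ι) : Subring (FractionRing R) :=
  chartRing R (FractionRing R) (II s) (s i) (Ideal.subset_span ⟨i, rfl⟩)

omit [IsDomain R] in
include hs in
theorem s_ne (i : ι) : algebraMap R (FractionRing R) (s i) ≠ 0 := by
  intro h
  exact hs i (IsFractionRing.injective R (FractionRing R) (by rw [h, map_zero]))

/-- the identification of the charts -/
def cE (i : ι) : HomogeneousLocalization.Away (gr (II s)) (tI s i) ≃+* CR s i :=
  chartEquiv (FractionRing R) (s i) _ (s_ne s hs i) (IsFractionRing.injective R (FractionRing R))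

/-- the identification of the charts, as an isomorphism -/
def cI (i : ι) : CommRingCat.of (HomogeneousLocalization.Away (gr (II s)) (tI s i)) ≅
    CommRingCat.of (CR s i) :=
  RingEquiv.toCommRingCatIso (cE s hs i)

/-- the charts -/
def jB (i : ι) : Spec (CommRingCat.of (CR s i)) ⟶ Proj (gr (II s)) :=
  Spec.map (cI s hs i).hom ≫
    Proj.awayι (gr (II s)) (tI s i) (tt_mem _ _) one_pos

instance jB_open (i : ι) : IsOpenImmersion (jB s hs i) := by
  unfold jB
  infer_instance

theorem jB_fB (i : ι) : jB s hs i ≫ fB s = Spec.map (CommRingCat.ofHom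
    (toChart R (FractionRing R) (II s) (s i) (Ideal.subset_span ⟨i, rfl⟩))) := by
  rw [jB, fB, Category.assoc, Proj.awayι_toSpecZero_assoc, ← Spec.map_comp, ← Spec.map_comp]
  congr 1
  ext r
  apply congrArg Subtype.val
  exact chartEquiv_zero (FractionRing R) (s i) _ (s_ne s hs i)
    (IsFractionRing.injective R (FractionRing R)) r

theorem range_jB (i : ι) : Set.range (jB s hs i) = Proj.basicOpen (gr (II s)) (tI s i) := by
  have h1 : (jB s hs i).opensRange = Proj.basicOpen (gr (II s)) (tI s i) := by
    rw [← Proj.opensRange_awayι (gr (II s)) (tI s i) (tt_mem _ _) one_pos]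
    exact Scheme.Hom.opensRange_comp_of_isIso _ _
  rw [← h1]
  rfl

theorem cover_jB (y : Proj (gr (II s))) : ∃ i, y ∈ Set.range (jB s hs i) := by
  have h : y ∈ ⨆ i, Proj.basicOpen (gr (II s)) (tI s i) := by
    rw [cover_tI]
    trivial
  obtain ⟨i, hi⟩ := TopologicalSpace.Opens.mem_iSup.1 h
  exact ⟨i, by rw [range_jB]; exact hi⟩

/-- the open cover by the charts -/
def coverB : (Proj (gr (II s))).AffineOpenCover where
  I₀ := ι
  X i := CommRingCat.of (CR s i)
  f i := jB s hs i
  idx y := (cover_jB s hs y).choose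
  covers y := (cover_jB s hs y).choose_spec

include hs in
theorem reducedB : IsReduced (Proj (gr (II s))) := by
  have h : ∀ i, IsReduced ((coverB s hs).openCover.X i) := by
    intro i
    exact inferInstanceAs (IsReduced (Spec (CommRingCat.of (CR s i))))
  exact IsReduced.of_openCover _ (coverB s hs).openCover

include hs in
theorem integralB [Nonempty ι] : IsIntegral (Proj (gr (II s))) := by
  have h1 := irred s hs
  have h2 := reducedB s hs
  exact isIntegral_of_irreducibleSpace_of_isReduced _

omit [IsDomain R] in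
theorem tI_mem (i : ι) : tI s i ∈ gr (II s) 1 := tt_mem _ _

theorem ratio (i k : ι) :
    toChart R (FractionRing R) (II s) (s k) (Ideal.subset_span ⟨k, rfl⟩) (s i) =
    toChart R (FractionRing R) (II s) (s k) (Ideal.subset_span ⟨k, rfl⟩) (s k) *
    cE s hs k (HomogeneousLocalization.Away.isLocalizationElem (tI_mem s k) (tI_mem s i)) := by
  apply Subtype.ext
  show algebraMap R (FractionRing R) (s i) = algebraMap R (FractionRing R) (s k) *
    phi (FractionRing R) (s k) (Ideal.subset_span (Set.mem_range_self k)) (s_ne s hs k)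
      (HomogeneousLocalization.Away.mk (gr (II s)) (tI_mem s k) 1 (tI s i ^ 1) _)
  rw [phi_mk, pow_one, ev_of_mem (FractionRing R) (s k) (tI_mem s i), coeff_tt, pow_one,
    mul_left_comm, mul_inv_cancel₀ (s_ne s hs k), mul_one]

/-- a point over `D(s i)` lies in the chart `i` -/
theorem mem_chart (i : ι) (y : Proj (gr (II s)))
    (hy : s i ∉ (fB s y).asIdeal) : y ∈ Set.range (jB s hs i) := by
  obtain ⟨k, p, rfl⟩ := cover_jB s hs y
  have h1 : fB s (jB s hs k p) = (jB s hs k ≫ fB s) p := rfl
  rw [h1, jB_fB, Spec.map_apply] at hy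
  have hy2 : toChart R (FractionRing R) (II s) (s k) (Ideal.subset_span ⟨k, rfl⟩) (s i) ∉
      p.asIdeal := hy
  rw [range_jB]
  show p ∈ (jB s hs k) ⁻¹ᵁ Proj.basicOpen (gr (II s)) (tI s i)
  rw [jB, Scheme.Hom.comp_preimage, Proj.awayι_preimage_basicOpen (gr (II s)) (tI_mem s k) one_pos
    (tI_mem s i) one_pos]
  show cE s hs k (HomogeneousLocalization.Away.isLocalizationElem (tI_mem s k) (tI_mem s i)) ∉
    p.asIdeal
  intro hmem
  apply hy2
  rw [ratio s hs i k]
  exact Ideal.mul_mem_left _ _ hmem

include hs in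
theorem birationalB [Nonempty ι] : IsBirationalMor (fB s) := by
  obtain ⟨i⟩ := ‹Nonempty ι›
  let c := toChart R (FractionRing R) (II s) (s i) (Ideal.subset_span (Set.mem_range_self i))
  let L := Localization.Away (c (s i))
  let _ : Algebra R L := ((algebraMap (CR s i) L).comp c).toAlgebra
  have hL : IsLocalization.Away (s i) L :=
    isLoc_chart (IsFractionRing.injective R (FractionRing R)) (II s) (s i)
      (Ideal.subset_span (Set.mem_range_self i)) L rfl (s_ne s hs i)
  let h : Spec (CommRingCat.of L) ⟶ Proj (gr (II s)) :=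
    Spec.map (CommRingCat.ofHom (algebraMap (CR s i) L)) ≫ jB s hs i
  have hh : IsOpenImmersion h := by
    have : IsOpenImmersion (Spec.map (CommRingCat.ofHom (algebraMap (CR s i) L))) :=
      IsOpenImmersion.of_isLocalization (c (s i))
    infer_instance
  have hf : h ≫ fB s = Spec.map (CommRingCat.ofHom (algebraMap R L)) := by
    show (Spec.map _ ≫ jB s hs i) ≫ fB s = _
    rw [Category.assoc, jB_fB, ← Spec.map_comp]
    rfl
  have hf2 : IsOpenImmersion (h ≫ fB s) := by
    rw [hf]
    exact IsOpenImmersion.of_isLocalization (s i)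
  let U : (Spec (CommRingCat.of R)).Opens := PrimeSpectrum.basicOpen (s i)
  have hr2 : Set.range (h ≫ fB s) = (U : Set (Spec (CommRingCat.of R))) := by
    rw [hf]
    exact PrimeSpectrum.localization_away_comap_range L (s i)
  have hr : Set.range h = (fB s ⁻¹ᵁ U : Set (Proj (gr (II s)))) := by
    apply Set.Subset.antisymm
    · rintro _ ⟨x, rfl⟩
      show fB s (h x) ∈ U
      have : (h ≫ fB s) x ∈ (U : Set (Spec (CommRingCat.of R))) := by
        rw [← hr2]; exact ⟨x, rfl⟩
      exact this
    · intro y hy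
      have hy' : s i ∉ (fB s y).asIdeal := hy
      obtain ⟨p, rfl⟩ := mem_chart s hs i y hy'
      have h1 : fB s (jB s hs i p) = (jB s hs i ≫ fB s) p := rfl
      rw [h1, jB_fB, Spec.map_apply] at hy'
      have h2 : p ∈ Set.range (PrimeSpectrum.comap (algebraMap (CR s i) L)) := by
        rw [PrimeSpectrum.localization_away_comap_range L (c (s i))]
        exact hy'
      obtain ⟨q, hq⟩ := h2
      refine ⟨q, ?_⟩
      show jB s hs i (Spec.map (CommRingCat.ofHom (algebraMap (CR s i) L)) q) = _
      congr 1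
  refine ⟨U, ?_, isIso_restrict (fB s) U h hr hr2⟩
  intro hU
  have : (⊥ : PrimeSpectrum R) ∈ (U : Set (Spec (CommRingCat.of R))) := hs i
  rw [hU] at this
  exact this

omit [IsDomain R] in
theorem projectiveB [Finite ι] : IsProjectiveMor (fB s) := by
  classical
  refine ⟨reesAlgebra (II s), inferInstance, inferInstance, gr (II s), inferInstance,
    ⟨(Set.finite_range (tI s)).toFinset, ?_, ?_⟩, Iso.refl _, ?_⟩
  · intro a ha
    rw [Set.Finite.mem_toFinset] at ha
    obtain ⟨i, rfl⟩ := ha
    exact tt_mem _ _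
  · rw [Set.Finite.coe_toFinset]
    exact adjoin_tI s
  · rw [Iso.refl_hom, Category.id_comp]
    rfl

end

end BL95

theorem blowup : BlowupStatement := by
  intro R _ _ _ ι _ _ s hs
  exact ⟨Proj (BL95.gr (BL95.II s)), BL95.integralB s hs, BL95.locNoeth s, inferInstance,
    BL95.fB s, BL95.projectiveB s, BL95.birationalB s hs, BL95.jB s hs,
    fun i => BL95.jB_open s hs i, fun i => BL95.jB_fB s hs i, fun y => BL95.cover_jB s hs y⟩

end Pool.Agent.H66DE
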