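import Pool.Agent.Helper95_DE.GlPoly

/-!
# `R0` is Gorenstein (module RGOR of the squad MP_9c87df_ag)
-/

open CategoryTheory CategoryTheory.Limits TensorProduct

noncomputable section

namespace Pool.Agent.H66DE

namespace GL95

theorem coext_epi (B A : Type) [CommRing B] [CommRing A] [Algebra B A] [Module.Projective B A] :
    (ModuleCat.coextendScalars.{0, 0, 0} (algebraMap B A)).PreservesEpimorphisms where
  preserves {M N} g hg := by
    rw [ModuleCat.epi_iff_surjective] at hg ⊢
    intro h
    let A' := (ModuleCat.restrictScalars (algebraMap B A)).obj (ModuleCat.of A A)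
    let e : A ≃ₗ[B] A' :=
      { __ := AddEquiv.refl A
        map_smul' := fun b a => Algebra.smul_def b a }
    have hp : Module.Projective B A' := Module.Projective.of_equiv e
    let h' : A' →ₗ[B] N := ModuleCat.CoextendScalars.equiv _ _ h
    obtain ⟨k, hk⟩ := Module.projective_lifting_property g.hom h' hg
    refine ⟨(ModuleCat.CoextendScalars.equiv _ _).symm k, ?_⟩
    apply (ModuleCat.CoextendScalars.equiv (algebraMap B A) N).injective
    exact hk

theorem coext_exact (B A : Type) [CommRing B] [CommRing A] [Algebra B A] [Module.Projective B A]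
    (T : ShortComplex (ModuleCat.{0} B)) (hT : T.ShortExact) :
    (T.map (ModuleCat.coextendScalars (algebraMap B A))).ShortExact := by
  have := coext_epi B A
  have hadj := ModuleCat.restrictCoextendScalarsAdj.{0, 0, 0} (algebraMap B A)
  have h1 : PreservesLimits (ModuleCat.coextendScalars.{0, 0, 0} (algebraMap B A)) :=
    hadj.rightAdjoint_preservesLimits
  have h2 := Functor.preservesHomology_of_preservesEpis_and_kernels
    (ModuleCat.coextendScalars.{0, 0, 0} (algebraMap B A))
  have h3 := hT.mono_f
  have h4 := hT.epi_g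
  exact hT.map _

/-- coinduction along a projective ring extension does not increase the injective dimension -/
theorem id_hom (B A : Type) [CommRing B] [CommRing A] [Algebra B A] [Module.Projective B A]
    (n : ℕ) : ∀ (M : ModuleCat.{0} B), HasInjectiveDimensionLT M n →
      HasInjectiveDimensionLT ((ModuleCat.coextendScalars (algebraMap B A)).obj M) n := by
  induction n with
  | zero =>
    intro M h
    have h0 := isZero_of_hasInjectiveDimensionLT_zero M
    have := (ModuleCat.coextendScalars (algebraMap B A)).map_isZero h0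
    exact this.hasInjectiveDimensionLT_zero
  | succ n ih =>
    rcases n with _ | n
    · intro M h
      rw [zero_add] at h ⊢
      rw [← injective_iff_hasInjectiveDimensionLT_one] at h ⊢
      exact (ModuleCat.restrictCoextendScalarsAdj.{0, 0, 0} (algebraMap B A)).map_injective _ h
    · intro M h
      obtain ⟨⟨I, inj, f, monof⟩⟩ := EnoughInjectives.presentation M
      let T := ShortComplex.mk f (cokernel.π f) (cokernel.condition f)
      have hT : T.ShortExact := { exact := ShortComplex.exact_cokernel f }
      have h3 := (hT.hasInjectiveDimensionLT_X₃_iff n inj).2 h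
      have h4 := ih T.X₃ h3
      have hT' : (T.map (ModuleCat.coextendScalars (algebraMap B A))).ShortExact :=
        coext_exact B A T hT
      have hI : Injective (T.map (ModuleCat.coextendScalars (algebraMap B A))).X₂ :=
        (ModuleCat.restrictCoextendScalarsAdj.{0, 0, 0} (algebraMap B A)).map_injective _ inj
      exact (hT'.hasInjectiveDimensionLT_X₃_iff n hI).1 h4

theorem fR_monic : fR.Monic := by
  unfold fR
  exact Polynomial.monic_X_pow_add_C _ (by norm_num)

theorem fR_degree : fR.degree = 4 := by
  unfold fR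
  exact Polynomial.degree_X_pow_add_C (by norm_num) _

/-- the top coefficient -/
def lam : R0 →ₗ[S] S := (Polynomial.lcoeff S 3).comp (AdjoinRoot.modByMonicHom fR_monic)

theorem xR_pow_four : xR ^ 4 = - (gS • (1 : R0)) := by
  have h : AdjoinRoot.mk fR fR = 0 := AdjoinRoot.mk_self
  have h2 : AdjoinRoot.mk fR fR = xR ^ 4 + gS • (1 : R0) := by
    show AdjoinRoot.mk fR (Polynomial.X ^ 4 + Polynomial.C gS) = _
    rw [map_add, map_pow, AdjoinRoot.mk_X, AdjoinRoot.mk_C, Algebra.smul_def, mul_one]
    rfl
  rw [h2] at h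
  exact eq_neg_of_add_eq_zero_left h

theorem lam_low (k : ℕ) (hk : k < 4) : lam (xR ^ k) = if k = 3 then 1 else 0 := by
  have h1 : xR ^ k = AdjoinRoot.mk fR (Polynomial.X ^ k) := by
    rw [map_pow, AdjoinRoot.mk_X]; rfl
  have h2 : AdjoinRoot.modByMonicHom fR_monic (xR ^ k) = Polynomial.X ^ k := by
    rw [h1, AdjoinRoot.modByMonicHom_mk, (Polynomial.modByMonic_eq_self_iff fR_monic).2]
    rw [fR_degree, Polynomial.degree_X_pow]
    exact_mod_cast hk
  rw [lam, LinearMap.comp_apply, h2, Polynomial.lcoeff_apply, Polynomial.coeff_X_pow]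
  simp [eq_comm]

theorem lam_pow (k : ℕ) (hk : k < 7) : lam (xR ^ k) = if k = 3 then 1 else 0 := by
  rcases Nat.lt_or_ge k 4 with h | h
  · exact lam_low k h
  · obtain ⟨j, rfl⟩ := Nat.exists_eq_add_of_le h
    rw [pow_add, xR_pow_four, neg_mul, smul_mul_assoc, one_mul, map_neg, map_smul,
      lam_low j (by omega), if_neg (by omega), if_neg (by omega), smul_zero, neg_zero]

theorem expand (b : R0) : ∃ c : Fin 4 → S, b = ∑ i, c i • xR ^ (i : ℕ) := by
  set p := AdjoinRoot.modByMonicHom fR_monic b with hp
  have h1 : AdjoinRoot.mk fR p = b := AdjoinRoot.mk_leftInverse fR_monic b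
  have h2 : p.degree < 4 := by
    obtain ⟨q, rfl⟩ := AdjoinRoot.mk_surjective b
    rw [hp, AdjoinRoot.modByMonicHom_mk, ← fR_degree]
    exact Polynomial.degree_modByMonic_lt _ fR_monic
  have h3 : p = ∑ i : Fin 4, Polynomial.C (p.coeff i) * Polynomial.X ^ (i : ℕ) := by
    rw [Fin.sum_univ_eq_sum_range (fun i => Polynomial.C (p.coeff i) * Polynomial.X ^ i) 4]
    have hd : p.natDegree < 4 := by
      by_cases h0 : p = 0
      · rw [h0]; simp
      · exact (Polynomial.natDegree_lt_iff_degree_lt h0).2 h2
    conv_lhs => rw [Polynomial.as_sum_range' p 4 hd]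
    simp [Polynomial.C_mul_X_pow_eq_monomial]
  refine ⟨fun i => p.coeff i, ?_⟩
  rw [← h1]
  nth_rw 1 [h3]
  rw [map_sum]
  refine Finset.sum_congr rfl fun i _ => ?_
  rw [map_mul, map_pow, AdjoinRoot.mk_X, AdjoinRoot.mk_C, Algebra.smul_def]
  rfl

theorem lam_smul (s : S) (a : R0) : lam (algebraMap S R0 s * a) = s • lam a := by
  rw [← Algebra.smul_def, map_smul]

/-- the functional `lam` as an element of the coinduced module -/
def lam' : (ModuleCat.coextendScalars (algebraMap S R0)).obj (ModuleCat.of S S) :=
  (ModuleCat.CoextendScalars.equiv _ _).symm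
    { toFun := fun a : R0 => lam a
      map_add' := fun a b => lam.map_add a b
      map_smul' := fun s a => lam_smul s a }

/-- the duality `R0 ≃ Hom_S(R0, S)` -/
def toDual : R0 →ₗ[R0] (ModuleCat.coextendScalars (algebraMap S R0)).obj (ModuleCat.of S S) :=
  LinearMap.toSpanSingleton R0 _ lam'

theorem toDual_apply (a b : R0) :
    ModuleCat.CoextendScalars.equiv _ _ (toDual a) b = lam (b * a) := by
  rfl

theorem lam_sum (c : Fin 4 → S) (j : ℕ) (hj : j < 4) :
    lam (xR ^ j * ∑ i, c i • xR ^ (i : ℕ)) = ∑ i : Fin 4, if (i : ℕ) + j = 3 then c i else 0 := by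
  rw [Finset.mul_sum, map_sum]
  refine Finset.sum_congr rfl fun i _ => ?_
  rw [mul_smul_comm, map_smul, ← pow_add, lam_pow _ (by omega), add_comm]
  split_ifs <;> simp

theorem toDual_injective : Function.Injective toDual := by
  rw [← LinearMap.ker_eq_bot, LinearMap.ker_eq_bot']
  intro a ha
  have h : ∀ b : R0, lam (b * a) = 0 := by
    intro b
    rw [← toDual_apply, ha]
    rfl
  obtain ⟨c, rfl⟩ := expand a
  have hc : ∀ i, c i = 0 := by
    intro i
    have := h (xR ^ (3 - (i : ℕ)))
    rw [lam_sum c _ (by omega)] at this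
    rw [Finset.sum_eq_single i] at this
    · rwa [if_pos (by omega)] at this
    · intro j _ hj
      rw [if_neg]
      intro h
      exact hj (Fin.ext (by omega))
    · simp
  simp [hc]

theorem lam_surj (ψ : R0 →ₗ[S] S) : ∃ a : R0, ∀ b : R0, lam (b * a) = ψ b := by
  refine ⟨∑ i : Fin 4, (ψ (xR ^ (3 - (i : ℕ)))) • xR ^ (i : ℕ), fun b => ?_⟩
  obtain ⟨c, rfl⟩ := expand b
  rw [Finset.sum_mul, map_sum, map_sum]
  refine Finset.sum_congr rfl fun j _ => ?_
  rw [smul_mul_assoc, map_smul, map_smul, lam_sum _ _ j.2]
  congr 1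
  rw [Finset.sum_eq_single ⟨3 - (j : ℕ), by omega⟩]
  · rw [if_pos (by simp; omega)]
    congr 2
    simp
    omega
  · intro i _ hi
    rw [if_neg]
    intro h
    exact hi (Fin.ext (by simp; omega))
  · simp

theorem toDual_surjective : Function.Surjective toDual := by
  intro φ
  let ψ : R0 →ₗ[S] S :=
    { toFun := fun a => ModuleCat.CoextendScalars.equiv _ _ φ a
      map_add' := fun a b => (ModuleCat.CoextendScalars.equiv _ _ φ).map_add a b
      map_smul' := fun s a => by
        rw [Algebra.smul_def]
        exact (ModuleCat.CoextendScalars.equiv _ _ φ).map_smul s a }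
  obtain ⟨a, ha⟩ := lam_surj ψ
  refine ⟨a, ?_⟩
  apply (ModuleCat.CoextendScalars.equiv _ _).injective
  exact LinearMap.ext fun b => ha b

end GL95

theorem rGor : RGorStatement := by
  refine ⟨?_, ?_⟩
  · have : IsNoetherianRing (Polynomial S) := inferInstance
    exact inferInstanceAs (IsNoetherianRing (Polynomial S ⧸ _))
  · obtain ⟨n, hn⟩ := finGlPoly
    have : Module.Free S R0 := GL95.fR_monic.free_adjoinRoot
    have h1 := GL95.id_hom S R0 n (ModuleCat.of S S) (hn _)
    let e := LinearEquiv.ofBijective GL95.toDual ⟨GL95.toDual_injective, GL95.toDual_surjective⟩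
    exact ⟨n, hasInjectiveDimensionLT_of_iso e.symm.toModuleIso n⟩

end Pool.Agent.H66DE
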