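import Pool.Agent.Helper95_DE.Rees

/-!
# The affine charts of the blow-up (module BLOW of the squad MP_9c87df_ag)
-/

open Polynomial

noncomputable section

namespace Pool.Agent.H66DE

namespace BL95

variable {R : Type} [CommRing R] (K : Type) [Field K] [Algebra R K]
  {I : Ideal R} (s : R) (hs : s ∈ I) (h0 : algebraMap R K s ≠ 0)

/-- the element `s T` of the Rees algebra -/
def tt (s : R) (hs : s ∈ I) : reesAlgebra I := mono 1 s (by rwa [pow_one])

theorem tt_mem : tt s hs ∈ gr I 1 := mono_mem _ _ _

/-- evaluation of `T` at `1/s` -/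
def ev (s : R) : reesAlgebra I →+* K :=
  (eval₂RingHom (algebraMap R K) (algebraMap R K s)⁻¹).comp (reesAlgebra I).val.toRingHom

theorem ev_of_mem {n : ℕ} {p : reesAlgebra I} (hp : p ∈ gr I n) :
    ev K s p = algebraMap R K ((p : R[X]).coeff n) * (algebraMap R K s)⁻¹ ^ n := by
  show eval₂ (algebraMap R K) (algebraMap R K s)⁻¹ (p : R[X]) = _
  conv_lhs => rw [eq_monomial hp]
  rw [eval₂_monomial]

theorem coeff_tt : ((tt s hs : reesAlgebra I) : R[X]).coeff 1 = s := by
  show (monomial 1 s).coeff 1 = s
  rw [coeff_monomial, if_pos rfl]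

include h0 in
theorem ev_tt : ev K s (tt s hs) = 1 := by
  rw [ev_of_mem K s (tt_mem s hs), pow_one, coeff_tt, mul_inv_cancel₀ h0]

/-- the degree zero part of the localization maps to the fraction field -/
def phi : HomogeneousLocalization.Away (gr I) (tt s hs) →+* K :=
  (IsLocalization.Away.lift (S := Localization.Away (tt s hs)) (g := ev K s) (tt s hs)
    (by rw [ev_tt K s hs h0]; exact isUnit_one)).comp
    (algebraMap (HomogeneousLocalization.Away (gr I) (tt s hs)) (Localization.Away (tt s hs)))

theorem phi_mk (n : ℕ) (x : reesAlgebra I) (hx : x ∈ gr I (n • 1)) :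
    phi K s hs h0 (HomogeneousLocalization.Away.mk (gr I) (tt_mem s hs) n x hx) = ev K s x := by
  have h1 : IsUnit (ev K s (tt s hs)) := by rw [ev_tt K s hs h0]; exact isUnit_one
  have h2 : phi K s hs h0 (HomogeneousLocalization.Away.mk (gr I) (tt_mem s hs) n x hx) *
      ev K s (tt s hs ^ n) = ev K s x := by
    show IsLocalization.Away.lift (S := Localization.Away (tt s hs)) (g := ev K s) (tt s hs) h1
      (HomogeneousLocalization.Away.mk (gr I) (tt_mem s hs) n x hx).val * _ = _
    rw [HomogeneousLocalization.Away.val_mk]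
    rw [← IsLocalization.Away.lift_eq (S := Localization.Away (tt s hs)) (g := ev K s) (tt s hs) h1
      (tt s hs ^ n), ← IsLocalization.Away.lift_eq (S := Localization.Away (tt s hs))
      (g := ev K s) (tt s hs) h1 x, ← map_mul]
    congr 1
    rw [Localization.mk_eq_mk']
    exact IsLocalization.mk'_spec _ _ _
  rwa [map_pow, ev_tt K s hs h0, one_pow, mul_one] at h2

theorem phi_mem (z : HomogeneousLocalization.Away (gr I) (tt s hs)) :
    phi K s hs h0 z ∈ chartRing R K I s hs := by
  obtain ⟨n, x, hx, rfl⟩ := HomogeneousLocalization.Away.mk_surjective (𝒜 := gr I) (tt_mem s hs) z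
  have hx' : x ∈ gr I n := by simpa using hx
  refine ⟨n, (x : R[X]).coeff n, x.2 n, ?_⟩
  rw [phi_mk, ev_of_mem K s hx', mul_assoc, ← mul_pow, inv_mul_cancel₀ h0, one_pow, mul_one]

theorem phi_injective (hinj : Function.Injective (algebraMap R K)) :
    Function.Injective (phi K s hs h0) := by
  rw [injective_iff_map_eq_zero]
  intro z hz
  obtain ⟨n, x, hx, rfl⟩ := HomogeneousLocalization.Away.mk_surjective (𝒜 := gr I) (tt_mem s hs) z
  have hx' : x ∈ gr I n := by simpa using hx
  rw [phi_mk, ev_of_mem K s hx'] at hz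
  have h1 : algebraMap R K ((x : R[X]).coeff n) = 0 := by
    rcases mul_eq_zero.1 hz with h | h
    · exact h
    · exact absurd h (pow_ne_zero _ (inv_ne_zero h0))
  have h2 : (x : R[X]).coeff n = 0 := hinj (by rw [h1, map_zero])
  have h3 : x = 0 := by
    apply Subtype.ext
    rw [eq_monomial hx', h2, monomial_zero_right]
    rfl
  apply HomogeneousLocalization.mk_eq_zero_of_num
  exact Subtype.ext h3

theorem phi_surj (z : K) (hz : z ∈ chartRing R K I s hs) : ∃ y, phi K s hs h0 y = z := by
  obtain ⟨n, r, hr, h⟩ := hz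
  refine ⟨HomogeneousLocalization.Away.mk (gr I) (tt_mem s hs) n (mono n r hr)
    (by simpa using mono_mem n r hr), ?_⟩
  rw [phi_mk, ev_of_mem K s (mono_mem n r hr)]
  have h1 : ((mono n r hr : reesAlgebra I) : R[X]).coeff n = r := by
    show (monomial n r).coeff n = r
    rw [coeff_monomial, if_pos rfl]
  rw [h1, ← h, mul_assoc, ← mul_pow, mul_inv_cancel₀ h0, one_pow, mul_one]

/-- the chart `D_+(s T)` of the blow-up is the spectrum of `R[I/s]` -/
def chartEquiv (hinj : Function.Injective (algebraMap R K)) :
    HomogeneousLocalization.Away (gr I) (tt s hs) ≃+* chartRing R K I s hs :=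
  RingEquiv.ofBijective ((phi K s hs h0).codRestrict (chartRing R K I s hs) (phi_mem K s hs h0))
    ⟨fun a b hab => phi_injective K s hs h0 hinj (congrArg Subtype.val hab), fun z => by
      obtain ⟨y, hy⟩ := phi_surj K s hs h0 z z.2
      exact ⟨y, Subtype.ext hy⟩⟩

theorem chartEquiv_zero (hinj : Function.Injective (algebraMap R K)) (r : R) :
    chartEquiv K s hs h0 hinj (HomogeneousLocalization.fromZeroRingHom (gr I) _
      (algebraMap R (gr I 0) r)) = toChart R K I s hs r := by
  apply Subtype.ext
  show phi K s hs h0 (HomogeneousLocalization.fromZeroRingHom (gr I) _ (algebraMap R (gr I 0) r)) =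
    algebraMap R K r
  have h1 : HomogeneousLocalization.fromZeroRingHom (gr I) (Submonoid.powers (tt s hs))
      (algebraMap R (gr I 0) r) =
      HomogeneousLocalization.Away.mk (gr I) (tt_mem s hs) 0 (algebraMap R (gr I 0) r).1
        (by simpa using (algebraMap R (gr I 0) r).2) := by
    apply HomogeneousLocalization.val_injective
    rw [HomogeneousLocalization.Away.val_mk]
    rfl
  rw [h1, phi_mk, ev_of_mem K s (n := 0) (algebraMap R (gr I 0) r).2, pow_zero, mul_one]
  congr 1
  show (C r : R[X]).coeff 0 = r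
  rw [coeff_C_zero]

end BL95

end Pool.Agent.H66DE
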