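import Pool.Agent.Helper66_DE.Statements

/-!
# Global dimension of polynomial rings (module GLPOLY of the squad MP_9c87df_ag)
-/

open CategoryTheory CategoryTheory.Limits TensorProduct Polynomial

noncomputable section

namespace Pool.Agent.H66DE

namespace GL95

theorem finGl_iff (A : Type) [CommRing A] :
    FinGl A ↔ ∃ n : ℕ, ∀ M : ModuleCat.{0} A, HasProjectiveDimensionLT M n := by
  constructor
  · rintro ⟨n, h⟩
    refine ⟨n, fun M => ?_⟩
    rw [hasProjectiveDimensionLT_iff]
    intro i hi Y e
    have := h Y
    exact e.eq_zero_of_hasInjectiveDimensionLT n hi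
  · rintro ⟨n, h⟩
    refine ⟨n, fun M => ?_⟩
    rw [hasInjectiveDimensionLT_iff]
    intro i hi Y e
    have := h Y
    exact e.eq_zero_of_hasProjectiveDimensionLT n hi

theorem base_exact {B : Type} (A : Type) [CommRing B] [CommRing A] [Algebra B A] {P M : Type}
    [AddCommGroup P] [Module B P] [AddCommGroup M] [Module B M] (π : P →ₗ[B] M)
    (hπ : Function.Surjective π) :
    Function.Exact ((LinearMap.ker π).subtype.baseChange A) (π.baseChange A) := by
  have h0 : Function.Exact (LinearMap.ker π).subtype π := LinearMap.exact_subtype_ker_map π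
  exact lTensor_exact A h0 hπ

/-- base change along a flat ring map does not increase the projective dimension -/
theorem pd_tensor (B A : Type) [CommRing B] [CommRing A] [Algebra B A] [Module.Flat B A] (n : ℕ) :
    ∀ (M : Type) [AddCommGroup M] [Module B M], HasProjectiveDimensionLT (ModuleCat.of B M) n →
      HasProjectiveDimensionLT (ModuleCat.of A (A ⊗[B] M)) n := by
  induction n with
  | zero =>
    intro M _ _ h
    have h0 := isZero_of_hasProjectiveDimensionLT_zero (ModuleCat.of B M)
    have h1 : Subsingleton M := ModuleCat.isZero_iff_subsingleton.1 h0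
    have h2 : Subsingleton (A ⊗[B] M) := inferInstance
    have h3 : Subsingleton (ModuleCat.of A (A ⊗[B] M)) := h2
    exact (ModuleCat.isZero_of_subsingleton (ModuleCat.of A (A ⊗[B] M))).hasProjectiveDimensionLT_zero
  | succ n ih =>
    rcases n with _ | n
    · intro M _ _ h
      rw [zero_add] at h ⊢
      rw [← projective_iff_hasProjectiveDimensionLT_one, ← IsProjective.iff_projective] at h ⊢
      exact inferInstanceAs (Module.Projective A (A ⊗[B] M))
    · intro M _ _ h
      -- a free presentation
      let P := M →₀ B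
      let π : P →ₗ[B] M := Finsupp.linearCombination B (id : M → M)
      have hπ : Function.Surjective π := Finsupp.linearCombination_id_surjective B M
      let S : ShortComplex (ModuleCat.{0} B) := π.shortComplexKer
      have hS : S.ShortExact := LinearMap.shortExact_shortComplexKer hπ
      have hP : Projective S.X₂ := by
        rw [← IsProjective.iff_projective]
        exact inferInstanceAs (Module.Projective B (M →₀ B))
      have h1 : HasProjectiveDimensionLT S.X₁ (n + 1) :=
        (hS.hasProjectiveDimensionLT_X₃_iff n hP).1 h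
      have h2 := ih (LinearMap.ker π) h1
      -- the base change
      let ι : A ⊗[B] (LinearMap.ker π) →ₗ[A] A ⊗[B] P := (LinearMap.ker π).subtype.baseChange A
      let ρ : A ⊗[B] P →ₗ[A] A ⊗[B] M := π.baseChange A
      have hex : Function.Exact ι ρ := by
        exact base_exact A π hπ
      have hinj : Function.Injective ι := by
        have := Module.Flat.lTensor_preserves_injective_linearMap (M := A)
          (LinearMap.ker π).subtype Subtype.val_injective
        exact this
      have hsurj : Function.Surjective ρ := LinearMap.lTensor_surjective A hπ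
      let S' : ShortComplex (ModuleCat.{0} A) :=
        ModuleCat.shortComplexOfCompEqZero ι ρ hex.linearMap_comp_eq_zero
      have hS' : S'.ShortExact := ModuleCat.shortComplex_shortExact S' hex hinj hsurj
      have hP' : Projective S'.X₂ := by
        rw [← IsProjective.iff_projective]
        exact inferInstanceAs (Module.Projective A (A ⊗[B] P))
      exact (hS'.hasProjectiveDimensionLT_X₃_iff n hP').2 h2

section Poly

variable {B : Type} [CommRing B] {M : Type} [AddCommGroup M] [Module B[X] M] [Module B M]
  [IsScalarTower B B[X] M]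

/-- multiplication by `X` on an `B[X]`-module, as a `B`-linear map -/
def mulX (B M : Type) [CommRing B] [AddCommGroup M] [Module B[X] M] [Module B M]
    [IsScalarTower B B[X] M] : M →ₗ[B] M where
  toFun m := (X : B[X]) • m
  map_add' _ _ := smul_add _ _ _
  map_smul' r m := by
    rw [RingHom.id_apply, ← algebraMap_smul B[X] r m, ← algebraMap_smul B[X] r, smul_smul, smul_smul,
      mul_comm]

/-- the evaluation map `B[X] ⊗ M → M` -/
def evM (B M : Type) [CommRing B] [AddCommGroup M] [Module B[X] M] [Module B M]
    [IsScalarTower B B[X] M] : B[X] ⊗[B] M →ₗ[B[X]] M :=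
  TensorProduct.AlgebraTensorModule.lift
    { toFun := fun f => f • (LinearMap.id : M →ₗ[B] M)
      map_add' := fun f g => by ext m; exact add_smul f g m
      map_smul' := fun f g => by ext m; exact mul_smul f g m }

@[simp] theorem evM_tmul (f : B[X]) (m : M) : evM B M (f ⊗ₜ m) = f • m := by
  simp [evM]

/-- `f ⊗ m ↦ X f ⊗ m - f ⊗ X m` -/
def dM (B M : Type) [CommRing B] [AddCommGroup M] [Module B[X] M] [Module B M]
    [IsScalarTower B B[X] M] : B[X] ⊗[B] M →ₗ[B[X]] B[X] ⊗[B] M :=
  (X : B[X]) • LinearMap.id - (mulX B M).baseChange B[X]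

@[simp] theorem dM_tmul (f : B[X]) (m : M) :
    dM B M (f ⊗ₜ m) = (X * f) ⊗ₜ m - f ⊗ₜ[B] ((X : B[X]) • m) := by
  simp [dM, mulX, TensorProduct.smul_tmul']

theorem evM_dM (t : B[X] ⊗[B] M) : evM B M (dM B M t) = 0 := by
  induction t with
  | zero => simp
  | tmul f m => rw [dM_tmul, map_sub, evM_tmul, evM_tmul, mul_comm, mul_smul, sub_self]
  | add a b ha hb => rw [map_add, map_add, ha, hb, add_zero]

theorem exists_dM (t : B[X] ⊗[B] M) : ∃ u, t = dM B M u + 1 ⊗ₜ (evM B M t) := by
  induction t with
  | zero => exact ⟨0, by simp⟩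
  | add a b ha hb =>
    obtain ⟨u, hu⟩ := ha
    obtain ⟨v, hv⟩ := hb
    refine ⟨u + v, ?_⟩
    rw [map_add, map_add, TensorProduct.tmul_add]
    nth_rw 1 [hu]
    nth_rw 1 [hv]
    abel
  | tmul f m =>
    induction f using Polynomial.induction_on' with
    | add p q hp hq =>
      obtain ⟨u, hu⟩ := hp
      obtain ⟨v, hv⟩ := hq
      refine ⟨u + v, ?_⟩
      rw [TensorProduct.add_tmul, map_add, map_add, TensorProduct.tmul_add]
      nth_rw 1 [hu]
      nth_rw 1 [hv]
      abel
    | monomial n a =>
      induction n generalizing m with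
      | zero =>
        refine ⟨0, ?_⟩
        rw [map_zero, zero_add, evM_tmul, monomial_zero_left, ← Polynomial.algebraMap_eq,
          algebraMap_smul, TensorProduct.tmul_smul, Algebra.algebraMap_eq_smul_one,
          TensorProduct.smul_tmul']
      | succ n ih =>
        obtain ⟨u, hu⟩ := ih ((X : B[X]) • m)
        refine ⟨u + (monomial n a) ⊗ₜ m, ?_⟩
        rw [evM_tmul] at hu
        rw [map_add, dM_tmul, evM_tmul, hu, X_mul_monomial, ← monomial_mul_X, mul_smul]
        abel

/-- the coefficients of an element of `B[X] ⊗ M` -/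
def cM (B M : Type) [CommRing B] [AddCommGroup M] [Module B M] (t : B[X] ⊗[B] M) : ℕ →₀ M :=
  (PolynomialModule.polynomialTensorProductLEquivPolynomialModule B M t).coeff

omit [Module B[X] M] [IsScalarTower B B[X] M] in
theorem cM_tmul (f : B[X]) (m : M) (n : ℕ) : cM B M (f ⊗ₜ m) n = f.coeff n • m := by
  have h : PolynomialModule.polynomialTensorProductLEquivPolynomialModule B M (f ⊗ₜ m) =
      f • PolynomialModule.single B 0 m := by
    show (LinearMap.liftBaseChange B[X] <| PolynomialModule.lsingle B (M := M) 0) (f ⊗ₜ m) = _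
    rw [LinearMap.liftBaseChange_tmul]
    rfl
  rw [cM, h, PolynomialModule.smul_single_apply, if_pos (Nat.zero_le n), Nat.sub_zero]

omit [Module B[X] M] [IsScalarTower B B[X] M] in
theorem cM_add (s t : B[X] ⊗[B] M) : cM B M (s + t) = cM B M s + cM B M t := by
  rw [cM, map_add]; rfl

omit [Module B[X] M] [IsScalarTower B B[X] M] in
theorem cM_zero : cM B M 0 = 0 := by
  rw [cM, map_zero]; rfl

omit [Module B[X] M] [IsScalarTower B B[X] M] in
theorem cM_inj (t : B[X] ⊗[B] M) (h : ∀ n, cM B M t n = 0) : t = 0 := by
  have : PolynomialModule.polynomialTensorProductLEquivPolynomialModule B M t = 0 := by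
    apply PolynomialModule.coeff_injective
    ext n
    exact h n
  exact (LinearEquiv.map_eq_zero_iff _).1 this

theorem cM_dM (t : B[X] ⊗[B] M) (n : ℕ) :
    cM B M (dM B M t) (n + 1) = cM B M t n - (X : B[X]) • cM B M t (n + 1) := by
  have key : ∀ t : B[X] ⊗[B] M, cM B M (dM B M t) (n + 1) + (X : B[X]) • cM B M t (n + 1)
      = cM B M t n := by
    intro t
    induction t with
    | zero => simp [cM_zero]
    | add a b ha hb =>
      rw [(dM B M).map_add, cM_add, cM_add, Finsupp.add_apply, Finsupp.add_apply, Finsupp.add_apply,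
        smul_add, ← ha, ← hb]
      abel
    | tmul f m =>
      have h : cM B M (dM B M (f ⊗ₜ m)) (n + 1) = cM B M ((X * f) ⊗ₜ m) (n + 1)
          - cM B M (f ⊗ₜ[B] ((X : B[X]) • m)) (n + 1) := by
        rw [eq_sub_iff_add_eq, ← Finsupp.add_apply, ← cM_add, dM_tmul, sub_add_cancel]
      rw [h, cM_tmul, cM_tmul, cM_tmul, cM_tmul, coeff_X_mul]
      have : (X : B[X]) • (f.coeff (n + 1) • m) = f.coeff (n + 1) • ((X : B[X]) • m) := by
        exact (mulX B M).map_smul _ _
      rw [this, sub_add_cancel]
  rw [← key t, add_sub_cancel_right]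

theorem dM_injective : Function.Injective (dM B M) := by
  rw [← LinearMap.ker_eq_bot, LinearMap.ker_eq_bot']
  intro t ht
  apply cM_inj
  obtain ⟨N, hN⟩ : ∃ N, ∀ n, N ≤ n → cM B M t n = 0 := by
    refine ⟨(cM B M t).support.sup id + 1, fun n hn => ?_⟩
    by_contra h
    have := Finset.le_sup (f := id) (Finsupp.mem_support_iff.2 h)
    simp only [id] at this
    omega
  have hstep : ∀ n, cM B M t n = (X : B[X]) • cM B M t (n + 1) := by
    intro n
    have := cM_dM t n
    rw [ht, cM_zero, Finsupp.coe_zero, Pi.zero_apply] at this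
    exact (sub_eq_zero.1 this.symm)
  have : ∀ k n, N ≤ n + k → cM B M t n = 0 := by
    intro k
    induction k with
    | zero => exact fun n hn => hN n hn
    | succ k ih =>
      intro n hn
      rw [hstep n, ih (n + 1) (by omega), smul_zero]
  exact fun n => this N n (by omega)

theorem dM_exact : Function.Exact (dM B M) (evM B M) := by
  intro t
  constructor
  · intro h
    obtain ⟨u, hu⟩ := exists_dM t
    rw [h, TensorProduct.tmul_zero, add_zero] at hu
    exact ⟨u, hu.symm⟩
  · rintro ⟨u, rfl⟩
    exact evM_dM u

theorem evM_surjective : Function.Surjective (evM B M) := fun m => ⟨1 ⊗ₜ m, by simp⟩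

end Poly

theorem finGl_poly (B : Type) [CommRing B] (h : FinGl B) : FinGl B[X] := by
  obtain ⟨n, h⟩ := (finGl_iff B).1 h
  refine (finGl_iff _).2 ⟨n + 1, fun M => ?_⟩
  let _ : Module B M := Module.compHom M (algebraMap B B[X])
  have : IsScalarTower B B[X] M := IsScalarTower.of_algebraMap_smul fun _ _ => rfl
  have h1 : HasProjectiveDimensionLT (ModuleCat.of B[X] (B[X] ⊗[B] M)) n :=
    pd_tensor B B[X] n M (h (ModuleCat.of B M))
  let S : ShortComplex (ModuleCat.{0} B[X]) :=
    ModuleCat.shortComplexOfCompEqZero (dM B M) (evM B M) dM_exact.linearMap_comp_eq_zero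
  have hS : S.ShortExact := ModuleCat.shortComplex_shortExact S dM_exact dM_injective
    evM_surjective
  exact hS.hasProjectiveDimensionLT_X₃ n h1 (hasProjectiveDimensionLT_of_ge _ n (n + 1) (by omega))

theorem finGl_field (k : Type) [Field k] : FinGl k := by
  refine (finGl_iff k).2 ⟨1, fun M => ?_⟩
  rw [← projective_iff_hasProjectiveDimensionLT_one, ← IsProjective.iff_projective]
  have : Module.Free k M := Module.Free.of_divisionRing k M
  exact Module.Projective.of_free

end GL95

attribute [local instance] RingHomInvPair.of_ringEquiv in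
theorem finGlEquiv : FinGlEquivStatement := by
  intro A B _ _ e hA
  obtain ⟨n, h⟩ := hA
  refine ⟨n, fun M => ?_⟩
  rcases n with _ | n
  · have h0 := h (ModuleCat.of A A)
    have h1 := isZero_of_hasInjectiveDimensionLT_zero (ModuleCat.of A A)
    have h2 : Subsingleton A := ModuleCat.isZero_iff_subsingleton.1 h1
    have h3 : Subsingleton B := e.symm.injective.subsingleton
    have h4 : Subsingleton M := Module.subsingleton B M
    exact (ModuleCat.isZero_of_subsingleton M).hasInjectiveDimensionLT_zero
  · let F : ModuleCat.{0} A := @ModuleCat.of A _ M _ (Module.compHom M (e : A →+* B))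
    have := h F
    let e' : F ≃ₛₗ[RingHomClass.toRingHom e] M :=
      { __ := AddEquiv.refl M
        map_smul' := fun _ _ => rfl }
    exact (ModuleCat.hasInjectiveDimensionLE_iff_of_semiLinearEquiv e e' n).1 this

theorem finGlPoly : FinGlPolyStatement := by
  have h : ∀ n : ℕ, FinGl (MvPolynomial (Fin n) ℂ) := by
    intro n
    induction n with
    | zero =>
      exact finGlEquiv _ _ (MvPolynomial.isEmptyRingEquiv ℂ (Fin 0)).symm (GL95.finGl_field ℂ)
    | succ n ih =>
      exact finGlEquiv _ _ (MvPolynomial.finSuccEquiv ℂ n).symm.toRingEquiv (GL95.finGl_poly _ ih)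
  exact h 3

end Pool.Agent.H66DE
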