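import Pool.Agent.Helper66_DE.Statements

/-!
# The graded Rees algebra (module BLOW of the squad MP_9c87df_ag)
-/

open Polynomial

noncomputable section

namespace Pool.Agent.H66DE

namespace BL95

variable {R : Type} [CommRing R] (I : Ideal R)

/-- the homogeneous part of degree `n` of the Rees algebra -/
def gr (n : ℕ) : Submodule R (reesAlgebra I) where
  carrier := {p | ∀ m, m ≠ n → (p : R[X]).coeff m = 0}
  add_mem' := fun {p q} hp hq m hm => by
    show ((p : R[X]) + (q : R[X])).coeff m = 0
    rw [coeff_add, hp m hm, hq m hm, add_zero]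
  zero_mem' := fun m _ => by
    show (0 : R[X]).coeff m = 0
    rw [coeff_zero]
  smul_mem' := fun r p hp m hm => by
    show (r • (p : R[X])).coeff m = 0
    rw [coeff_smul, hp m hm, smul_zero]

variable {I}

theorem mem_gr {n : ℕ} {p : reesAlgebra I} :
    p ∈ gr I n ↔ ∀ m, m ≠ n → (p : R[X]).coeff m = 0 := Iff.rfl

theorem eq_monomial {n : ℕ} {p : reesAlgebra I} (hp : p ∈ gr I n) :
    (p : R[X]) = monomial n ((p : R[X]).coeff n) := by
  ext m
  rw [coeff_monomial]
  split_ifs with h
  · rw [h]
  · exact hp m (Ne.symm h)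

/-- the element `r X^n` of the Rees algebra -/
def mono (n : ℕ) (r : R) (hr : r ∈ I ^ n) : reesAlgebra I :=
  ⟨monomial n r, reesAlgebra.monomial_mem.2 hr⟩

theorem mono_mem (n : ℕ) (r : R) (hr : r ∈ I ^ n) : mono n r hr ∈ gr I n := by
  intro m hm
  show (monomial n r).coeff m = 0
  rw [coeff_monomial, if_neg (Ne.symm hm)]

theorem eq_mono {n : ℕ} {p : reesAlgebra I} (hp : p ∈ gr I n) :
    p = mono n ((p : R[X]).coeff n) (p.2 n) :=
  Subtype.ext (eq_monomial hp)

instance : SetLike.GradedMonoid (gr I) where
  one_mem := by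
    intro m hm
    show (1 : R[X]).coeff m = 0
    rw [coeff_one, if_neg hm]
  mul_mem := by
    intro i j p q hp hq m hm
    show ((p : R[X]) * (q : R[X])).coeff m = 0
    rw [eq_monomial hp, eq_monomial hq, monomial_mul_monomial, coeff_monomial, if_neg (Ne.symm hm)]

/-- the coefficient of degree `n` of an element of the direct sum -/
theorem coeff_coe (x : DirectSum ℕ fun i => gr I i) (n : ℕ) :
    ((DirectSum.coeAddMonoidHom (gr I) x : reesAlgebra I) : R[X]).coeff n =
      ((x n : reesAlgebra I) : R[X]).coeff n := by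
  classical
  induction x using DirectSum.induction_on with
  | zero => simp
  | of i y =>
    rw [DirectSum.coeAddMonoidHom_of]
    by_cases h : i = n
    · subst h
      rw [DirectSum.of_eq_same]
    · rw [DirectSum.of_eq_of_ne _ _ _ (Ne.symm h)]
      rw [y.2 n (Ne.symm h)]
      simp
  | add x y hx hy =>
    rw [map_add, Subalgebra.coe_add, coeff_add, hx, hy, DirectSum.add_apply, Submodule.coe_add,
      Subalgebra.coe_add, coeff_add]

theorem gr_isInternal : DirectSum.IsInternal (gr I) := by
  classical
  constructor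
  · intro x y hx
    apply DFinsupp.ext
    intro n
    apply Subtype.ext
    apply Subtype.ext
    ext m
    by_cases h : m = n
    · subst h
      have h1 := coeff_coe x m
      have h2 := coeff_coe y m
      rw [hx] at h1
      exact h1.symm.trans h2
    · exact ((x n).2 m h).trans ((y n).2 m h).symm
  · intro p
    refine ⟨∑ n ∈ (p : R[X]).support,
      DirectSum.of (fun i => gr I i) n ⟨mono n ((p : R[X]).coeff n) (p.2 n), mono_mem _ _ _⟩, ?_⟩
    rw [map_sum]
    apply Subtype.ext
    rw [AddSubmonoidClass.coe_finsetSum]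
    conv_rhs => rw [(p : R[X]).as_sum_support]
    refine Finset.sum_congr rfl fun n _ => ?_
    rw [DirectSum.coeAddMonoidHom_of]
    rfl

instance : DirectSum.Decomposition (gr I) := gr_isInternal.chooseDecomposition

instance : GradedAlgebra (gr I) where

/-- generators of the Rees algebra -/
theorem adjoin_gen {ι : Type} (s : ι → R) (t : ι → reesAlgebra (Ideal.span (Set.range s)))
    (ht : ∀ i, (t i : R[X]) = monomial 1 (s i)) : Algebra.adjoin R (Set.range t) = ⊤ := by
  rw [eq_top_iff]
  intro p _
  have h1 : reesAlgebra (Ideal.span (Set.range s)) ≤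
      (Algebra.adjoin R (Set.range t)).map (reesAlgebra (Ideal.span (Set.range s))).val := by
    refine (adjoin_monomial_eq_reesAlgebra _).symm.le.trans ?_
    apply Algebra.adjoin_le
    rintro _ ⟨r, hr, rfl⟩
    refine Submodule.span_induction (p := fun r _ => (monomial 1 r : R[X]) ∈
      (Algebra.adjoin R (Set.range t)).map (reesAlgebra (Ideal.span (Set.range s))).val)
      ?_ ?_ ?_ ?_ hr
    · rintro _ ⟨i, rfl⟩
      exact ⟨t i, Algebra.subset_adjoin ⟨i, rfl⟩, ht i⟩
    · rw [map_zero]; exact zero_mem _
    · intro a b _ _ ha hb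
      rw [map_add]; exact add_mem ha hb
    · intro c a _ ha
      rw [smul_eq_mul, ← smul_eq_mul, ← smul_monomial]
      exact Subalgebra.smul_mem _ ha c
  obtain ⟨q, hq, hqp⟩ := h1 p.2
  have : q = p := Subtype.ext hqp
  rwa [← this]

end BL95

end Pool.Agent.H66DE
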